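import Pool.Agent.MWS.StmtsB

/-!
# MWS, row BFX (helper30)
-/

namespace Pool.Agent.MWS.H30

open Pool.Agent.Helper14_MV Pool.Agent.Helper2_MV Pool.Agent.MVO Pool.Agent.MWL Pool.Agent.MWS

theorem bef_nil (x y : ℕ) : Bef [] x y := by
  intro P Q h
  simp at h

theorem bef_cons (a : ℕ) (l : List ℕ) (x y : ℕ) :
    Bef (a :: l) x y ↔ ((a = y → x ∉ l) ∧ Bef l x y) := by
  constructor
  · intro h
    refine ⟨fun e => h [] l (by simp [e]), fun P Q e => h (a :: P) Q (by simp [e])⟩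
  · rintro ⟨h1, h2⟩ P Q e
    cases P with
    | nil =>
      simp only [List.nil_append, List.cons.injEq] at e
      rw [← e.2]
      exact h1 e.1
    | cons b P' =>
      simp only [List.cons_append, List.cons.injEq] at e
      exact h2 P' Q e.2

theorem bef_append (A B : List ℕ) (x y : ℕ) :
    Bef (A ++ B) x y ↔ (Bef A x y ∧ Bef B x y ∧ (y ∈ A → x ∉ B)) := by
  induction A with
  | nil => simp [bef_nil]
  | cons a A ih =>
    rw [List.cons_append, bef_cons, bef_cons, ih]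
    simp only [List.mem_append, List.mem_cons, not_or]
    constructor
    · rintro ⟨h1, h2, h3, h4⟩
      refine ⟨⟨fun e => (h1 e).1, h2⟩, h3, ?_⟩
      rintro (e | e)
      · exact (h1 e.symm).2
      · exact h4 e
    · rintro ⟨⟨h1, h2⟩, h3, h4⟩
      exact ⟨fun e => ⟨h1 e, h4 (Or.inl e.symm)⟩, h2, h3, fun e => h4 (Or.inr e)⟩

theorem bef_left {l : List ℕ} {x y : ℕ} (h : x ∉ l) : Bef l x y := by
  intro P Q e hx
  apply h
  rw [e]
  simp [hx]

theorem bef_right {l : List ℕ} {x y : ℕ} (h : y ∉ l) : Bef l x y := by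
  intro P Q e
  exfalso
  apply h
  rw [e]
  simp

theorem bfx : BfxStmt := by
  intro A D x y hxy
  have key : ∀ x y : ℕ, x ≠ y → (Bef (A ++ x :: y :: D) x y ↔ (y ∉ A ∧ x ∉ D)) := by
    intro x y hxy
    rw [bef_append, bef_cons, bef_cons]
    constructor
    · rintro ⟨_, ⟨_, h1, _⟩, h2⟩
      exact ⟨fun e => (h2 e) (by simp), h1 rfl⟩
    · rintro ⟨h1, h2⟩
      exact ⟨bef_right h1, ⟨fun e => absurd e hxy, fun _ => h2, bef_left h2⟩, fun e => absurd e h1⟩
  have key2 : ∀ x y : ℕ, ¬ Bef (A ++ y :: x :: D) x y := by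
    intro x y h
    exact h A (x :: D) rfl (by simp)
  refine ⟨key x y hxy, key2 x y, key2 y x, key y x hxy.symm, ?_⟩
  intro c d h1 h2
  rw [bef_append, bef_append, bef_cons, bef_cons, bef_cons, bef_cons]
  have hm : c ∉ x :: y :: D ↔ c ∉ y :: x :: D := by
    simp only [List.mem_cons, not_or]
    tauto
  rw [hm]
  have hm2 : ((x = d → c ∉ y :: D) ∧ (y = d → c ∉ D) ∧ Bef D c d) ↔
      ((y = d → c ∉ x :: D) ∧ (x = d → c ∉ D) ∧ Bef D c d) := by
    simp only [List.mem_cons, not_or]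
    constructor
    · rintro ⟨g1, g2, g3⟩
      refine ⟨fun e => ⟨fun e' => h1 ⟨e', e.symm⟩, g2 e⟩, fun e => (g1 e).2, g3⟩
    · rintro ⟨g1, g2, g3⟩
      refine ⟨fun e => ⟨fun e' => h2 ⟨e', e.symm⟩, g2 e⟩, fun e => (g1 e).2, g3⟩
  rw [hm2]

end Pool.Agent.MWS.H30
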