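import Pool.Agent.MWS.StmtsW
import Pool.Agent.Helper30_MWS.BFX

/-!
# MWS, row EDV (helper30)
-/

namespace Pool.Agent.MWS.H30E

open Pool.Agent.Helper14_MV Pool.Agent.Helper2_MV Pool.Agent.MVO Pool.Agent.MWL Pool.Agent.MWS

theorem hv_congr {m n : ℕ} (h : m = 0 ↔ n = 0) : hv m = hv n := by
  unfold hv
  by_cases hm : m = 0
  · rw [if_pos hm, if_pos (h.1 hm)]
  · rw [if_neg hm, if_neg (fun e => hm (h.2 e))]

theorem te_ext {θ : FIC} {k : ℕ} {a b a' b' : ℕ → ℕ} {i : ℕ}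
    (h : ∀ j ≤ k, (a j = 0 ↔ a' j = 0) ∧ (b j = 0 ↔ b' j = 0)) (ht : TE θ k a b i) :
    TE θ k a' b' i := by
  intro e
  have key : ∀ l : List ℕ, asm k (cb a' b' e i l) = asm k (cb a b e i l) := by
    intro l
    apply asm_congr
    intro j hj
    unfold cb
    rw [hv_congr (h j hj).1, hv_congr (h j hj).2]
  have := ht e
  unfold edg at this ⊢
  simp only at this ⊢
  rw [key, key]
  exact this

theorem bef_map {f : ℕ → ℕ} (hf : Function.Injective f) (l : List ℕ) (x y : ℕ) :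
    Bef (l.map f) (f x) (f y) ↔ Bef l x y := by
  induction l with
  | nil => simp [Pool.Agent.MWS.H30.bef_nil]
  | cons a l ih =>
    rw [List.map_cons, Pool.Agent.MWS.H30.bef_cons, Pool.Agent.MWS.H30.bef_cons, ih, hf.eq_iff,
      List.mem_map_of_injective hf]

theorem sml_of_shp {k : ℕ} {B B' : ℕ → List ℕ} (hB : OkB k B) (hB' : OkB k B') (h : Shp k B B') :
    SmL k B B' := by
  intro j hj c
  by_cases hc : NS k c
  · have := h c hc j hj
    unfold ty at this
    rw [← List.count_pos_iff, ← List.count_pos_iff]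
    omega
  · exact ⟨fun h1 => absurd (hB.ok j hj c h1) hc, fun h1 => absurd (hB'.ok j hj c h1) hc⟩

theorem sml_ty {k : ℕ} {B B' : ℕ → List ℕ} (h : SmL k B B') (c : ℕ) :
    ∀ j ≤ k, (ty B c j = 0 ↔ ty B' c j = 0) := by
  intro j hj
  unfold ty
  rw [List.count_eq_zero, List.count_eq_zero, h j hj c]

/-- exchange of the letters 0 and 1 -/
def sw (B : ℕ → List ℕ) : ℕ → List ℕ := fun j => (B j).map (Equiv.swap 0 1)

theorem sw_ty (B : ℕ → List ℕ) (c : ℕ) : ty (sw B) (Equiv.swap 0 1 c) = ty B c := by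
  funext j
  unfold ty sw
  exact List.count_map_of_injective _ _ (Equiv.injective _) _

theorem sw_ty0 (B : ℕ → List ℕ) : ty (sw B) 0 = ty B 1 := by
  have := sw_ty B 1
  rwa [Equiv.swap_apply_right] at this

theorem sw_ty1 (B : ℕ → List ℕ) : ty (sw B) 1 = ty B 0 := by
  have := sw_ty B 0
  rwa [Equiv.swap_apply_left] at this

theorem sw_two {k : ℕ} {B : ℕ → List ℕ} (h : Two01 k B) : Two01 k (sw B) := by
  intro j hj c hc
  unfold sw at hc
  rw [List.mem_map] at hc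
  obtain ⟨d, hd, rfl⟩ := hc
  rcases h j hj d hd with rfl | rfl
  · right; exact Equiv.swap_apply_left _ _
  · left; exact Equiv.swap_apply_right _ _

theorem sw_ok {k : ℕ} {B : ℕ → List ℕ} (hB : OkB k B) (h : Two01 k B) : OkB k (sw B) := by
  refine ⟨?_, ?_⟩
  · intro j hj c hc hs
    rcases sw_two h j hj c hc with rfl | rfl
    · exact absurd hs.1 (by omega)
    · exact absurd hs.1 (by omega)
  · intro j hj c hc
    unfold sw at hc
    rw [List.mem_map] at hc
    obtain ⟨d, hd, rfl⟩ := hc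
    have h1 := hB.ml j hj d hd
    have h2 : (fun j => (sw B j).count (Equiv.swap 0 1 d)) = fun j => (B j).count d := by
      have := sw_ty B d
      unfold ty at this
      exact this
    rw [h2]
    exact h1

theorem sw_sml {k : ℕ} {B B' : ℕ → List ℕ} (h : SmL k B B') : SmL k (sw B) (sw B') := by
  intro j hj c
  unfold sw
  rw [List.mem_map, List.mem_map]
  constructor
  · rintro ⟨d, hd, rfl⟩
    exact ⟨d, (h j hj d).1 hd, rfl⟩
  · rintro ⟨d, hd, rfl⟩
    exact ⟨d, (h j hj d).2 hd, rfl⟩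

theorem sw_bef (B : ℕ → List ℕ) (i : ℕ) : Bef (sw B i) 0 1 ↔ Bef (B i) 1 0 := by
  have := bef_map (Equiv.injective (Equiv.swap 0 1)) (B i) 1 0
  rwa [Equiv.swap_apply_right, Equiv.swap_apply_left] at this

theorem sw_rr {θ : FIC} {k : ℕ} {B B' : ℕ → List ℕ} (hB : BlkOk k B) (hB' : BlkOk k B')
    (h : RR θ (asm k B) (asm k B')) : RR θ (asm k (sw B)) (asm k (sw B')) := by
  have := rr_sub θ (fun c => [Equiv.swap 0 1 c]) hB hB' h
  have e : ∀ l : List ℕ, l.flatMap (fun c => [Equiv.swap 0 1 c]) = l.map (Equiv.swap 0 1) := by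
    intro l
    induction l with
    | nil => rfl
    | cons a l ih => rw [List.flatMap_cons, ih]; rfl
  simp only [e] at this
  exact this

theorem core (hTW : TwvStmt) {V : ℕ → (ℕ → ℕ) → (ℕ → ℕ) → ℕ → Prop} {β : FIC} (hV : VisOk V)
    (hC : ClV V β) {k : ℕ} {B B' : ℕ → List ℕ} (hB : OkB k B) (hB' : OkB k B') (h01 : Two01 k B)
    (h01' : Two01 k B') (hS : SmL k B B') {θ : FIC} (hθ : β ≤ θ)
    (hr : RR θ (asm k B) (asm k B')) (i : ℕ) (hv : V k (ty B 0) (ty B 1) i)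
    (hd : ¬ (Bef (B i) 0 1 ↔ Bef (B' i) 0 1)) : TE θ k (ty B 0) (ty B 1) i := by
  by_cases hb : Bef (B i) 0 1
  · exact hTW V β θ hV hC hθ k B B' hB hB' h01 h01' hS i hv hr hb (fun h => hd (iff_of_true hb h))
  · have hb' : Bef (B' i) 0 1 := by
      by_contra h
      exact hd (iff_of_false hb h)
    have hs' : SmL k B' B := fun j hj c => (hS j hj c).symm
    have e1 : ∀ j ≤ k, (ty B 0 j = 0 ↔ ty B' 0 j = 0) ∧ (ty B 1 j = 0 ↔ ty B' 1 j = 0) :=
      fun j hj => ⟨sml_ty hS 0 j hj, sml_ty hS 1 j hj⟩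
    have e2 : ∀ j ≤ k, (ty B' 0 j = 0 ↔ ty B 0 j = 0) ∧ (ty B' 1 j = 0 ↔ ty B 1 j = 0) :=
      fun j hj => ⟨sml_ty hs' 0 j hj, sml_ty hs' 1 j hj⟩
    exact te_ext e2 (hTW V β θ hV hC hθ k B' B hB' hB h01' h01 hs' i
      (hV.ext k _ _ _ _ i e1 hv) hr.symm hb' hb)

theorem claim (hTE : TevStmt) (hJP : JpvStmt) {V : ℕ → (ℕ → ℕ) → (ℕ → ℕ) → ℕ → Prop} {β : FIC}
    (hV : VisOk V) (hC : ClV V β) (k : ℕ) (a b : ℕ → ℕ) (d : ℕ → Prop) :
    ∃ L : List (List ℕ × List ℕ), (∀ e ∈ L, JPp β e) ∧ ∀ θ : FIC, β ≤ θ →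
      ((∀ e ∈ L, RR θ e.1 e.2) ↔ ∀ i, V k a b i → d i → TE θ k a b i) := by
  by_cases h : ∃ i, V k a b i ∧ d i
  · obtain ⟨i, hv, hd⟩ := h
    refine ⟨[edg k a b (fun _ => false) i], ?_, ?_⟩
    · intro e he
      rw [List.mem_singleton] at he
      rw [he]
      exact hJP V β hV hC k a b _ i hv
    · intro θ hθ
      constructor
      · intro h1 i' hv' _
        have := hV.uni k a b i' i hv' hv
        rw [this]
        exact hTE V β θ hV hC hθ k a b i hv _ (h1 _ (List.mem_singleton.2 rfl))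
      · intro h1 e he
        rw [List.mem_singleton] at he
        rw [he]
        exact h1 i hv hd _
  · refine ⟨[], by simp, fun θ _ => ⟨fun _ i hv hd => absurd ⟨i, hv, hd⟩ h, by simp⟩⟩

theorem edv (hN : NfvStmt) (hTE : TevStmt) (hTW : TwvStmt) (hJP : JpvStmt) : EdvStmt := by
  intro V β hV hC k B B' hB hB' h01 h01' hShp
  have hS := sml_of_shp hB hB' hShp
  obtain ⟨L1, hL1, hE1⟩ := claim hTE hJP hV hC k (ty B 0) (ty B 1)
    (fun i => ¬ (Bef (B i) 0 1 ↔ Bef (B' i) 0 1))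
  obtain ⟨L2, hL2, hE2⟩ := claim hTE hJP hV hC k (ty B 1) (ty B 0)
    (fun i => ¬ (Bef (B i) 1 0 ↔ Bef (B' i) 1 0))
  refine ⟨L1 ++ L2, ?_, ?_⟩
  · intro e he
    rcases List.mem_append.1 he with h | h
    · exact hL1 e h
    · exact hL2 e h
  · intro θ hθ _
    have hsplit : (∀ e ∈ L1 ++ L2, RR θ e.1 e.2) ↔
        ((∀ e ∈ L1, RR θ e.1 e.2) ∧ (∀ e ∈ L2, RR θ e.1 e.2)) := by
      constructor
      · intro h
        exact ⟨fun e he => h e (List.mem_append.2 (Or.inl he)),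
          fun e he => h e (List.mem_append.2 (Or.inr he))⟩
      · rintro ⟨h1, h2⟩ e he
        rcases List.mem_append.1 he with h | h
        · exact h1 e h
        · exact h2 e h
    rw [hsplit, hE1 θ hθ, hE2 θ hθ]
    constructor
    · intro hr
      refine ⟨fun i hv hd => core hTW hV hC hB hB' h01 h01' hS hθ hr i hv hd, ?_⟩
      intro i hv hd
      have h3 := core hTW hV hC (sw_ok hB h01) (sw_ok hB' h01') (sw_two h01) (sw_two h01')
        (sw_sml hS) hθ (sw_rr hB.ok hB'.ok hr) i (by rw [sw_ty0, sw_ty1]; exact hv)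
        (by rw [sw_bef, sw_bef]; exact hd)
      rw [sw_ty0, sw_ty1] at h3
      exact h3
    · rintro ⟨h1, h2⟩
      refine hN V β θ hV hC hθ k B B' hB hB' hS ?_
      intro x y i hxy hv hd
      obtain ⟨hik, hx, hy⟩ := hV.mem k _ _ i hv
      have hx' : x ∈ B i := List.count_pos_iff.1 (Nat.pos_of_ne_zero hx)
      have hy' : y ∈ B i := List.count_pos_iff.1 (Nat.pos_of_ne_zero hy)
      rcases h01 i hik x hx' with rfl | rfl
      · rcases h01 i hik y hy' with rfl | rfl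
        · exact absurd rfl hxy
        · exact h1 i hv hd
      · rcases h01 i hik y hy' with rfl | rfl
        · exact h2 i hv hd
        · exact absurd rfl hxy

end Pool.Agent.MWS.H30E
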